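import Pool.Agent.H41.VAS.ValT
import Pool.Agent.H50.LSH.H2
import Pool.Agent.H19.VAS.Obj2

/-!
# (H2) for the total sheet on a sub-law

The height of the target over the total sheet has few values given the context of the own leaf (leaf
on the visible side), so it says little on the data of the line.
-/

set_option autoImplicit false

namespace Pool.VAS

open Finset MvPolynomial
open Pool.Agent.H49.Ent Pool.Agent.H32.Dense Pool.STK Pool.STAT Pool.MIC Pool.MicA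
open Pool.MIC.Frm (sl nat)
open Pool.BFL (Pl Pb)
open Pool.TIE (SubL MB mxs)
open Pool.GSD (YpS ztS vtP)
open Pool.LSH

namespace H50

/-- A bound of the values. -/
theorem eval_bd {m D : ℕ} (R : Pl m) (hR : R.totalDegree ≤ D) {c : ℝ} (hc0 : 0 ≤ c)
    (hc : ∀ α, |coeff α R| ≤ c) {y : Fin m → ℝ} (hy : ∀ i, |y i| ≤ 1) :
    |eval y R| ≤ ((Pool.Agent.H36.KBX.bx m D).card * ((m : ℝ) * D) + 1) * c := by
  have h3 : |eval y R - eval (0 : Fin m → ℝ) R| ≤
      (Pool.Agent.H36.KBX.bx m D).card * ((m : ℝ) * D * (c * 1)) :=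
    pl_lip R hR hc0 (fun α _ => hc α) zero_le_one hy (fun i => by simp) (fun i => by
      simpa using hy i)
  have h4 : |eval (0 : Fin m → ℝ) R| ≤ c := by
    have e1 : eval (0 : Fin m → ℝ) R = coeff 0 R := by
      rw [← constantCoeff_eq, ← eval_zero']
      rfl
    rw [e1]
    exact hc 0
  have e1 : eval y R = (eval y R - eval (0 : Fin m → ℝ) R) + eval (0 : Fin m → ℝ) R := by ring
  rw [e1]
  refine (abs_add_le _ _).trans ?_
  linarith only [h3, h4]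

section

variable {D : NDat2} {n K J a₀ w₀ z M : ℕ} {lam gam : ℕ → ℝ} {κ C₁ : ℝ} {q : D.Ω → ℝ}

/-- The sample is in the mixed box. -/
theorem mb_own (hO : D.Ok2 n K J a₀ w₀ z M lam gam κ C₁ q) {i j i' j' : ℕ} (hi : i ≤ M)
    (hj : j ≤ M) (hi' : i' ≤ M) (hj' : j' ≤ M) {ω : D.Ω} (hω : 0 < q ω) :
    MB D i j i' j' n ω (D.X ω) := by
  refine ⟨rfl, fun l l1 l2 => ?_⟩
  unfold mxs
  by_cases h : D.g i j l < D.g i' j' l
  · rw [if_pos h]
    show _ ≤ 1 / 2 ^ max (D.g i j l) (D.g i' j' l)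
    rw [max_eq_right h.le]
    exact hO.pos i' hi' j' hj' ω hω l l1 l2.le
  · rw [if_neg h]
    show _ ≤ 1 / 2 ^ max (D.g i j l) (D.g i' j' l)
    rw [max_eq_left (not_lt.1 h)]
    exact hO.pos i hi j hj ω hω l l1 l2.le

theorem mb_congr {i j i' j' : ℕ} {ω ω' : D.Ω} (e1 : D.Ψ i j ω = D.Ψ i j ω')
    (e2 : D.Ψ i' j' ω = D.Ψ i' j' ω') (e3 : D.X ω 0 = D.X ω' 0) {b : ℕ → ℝ}
    (h : MB D i j i' j' n ω' b) : MB D i j i' j' n ω b := by
  unfold MB at h ⊢
  rw [e1, e2, e3]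
  exact h

theorem kTr_congr {i j : ℕ} {ω ω' : D.Ω} (e1 : D.Ψ i j ω = D.Ψ i j ω')
    (e2 : D.Φ i j ω = D.Φ i j ω') (e3 : D.X ω 0 = D.X ω' 0) (F : Pl (n - 1)) :
    kTr D n z i j F ω = kTr D n z i j F ω' := by
  unfold kTr
  rw [e1, e2, e3]

theorem kT_congr {i j bb : ℕ} {ω ω' : D.Ω} (e1 : D.Ψ i j ω = D.Ψ i j ω')
    (e2 : D.Φ i j ω = D.Φ i j ω') (e3 : D.X ω 0 = D.X ω' 0) (F : Pl (n - 1)) :
    kT D n z i j bb F ω = kT D n z i j bb F ω' := by
  unfold kT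
  rw [kTr_congr e1 e2 e3]

theorem kT_eq {i j bb : ℕ} {ω : D.Ω} {F : Pl (n - 1)}
    (h : ∀ α, |coeff α (kTr D n z i j F ω)| ≤ 2 ^ bb) :
    kT D n z i j bb F ω = kTr D n z i j F ω := by
  unfold kT
  rw [if_pos h]

/-- The height over the total sheet. -/
theorem hgt_tot (hO : D.Ok2 n K J a₀ w₀ z M lam gam κ C₁ q) {i j : ℕ} {ω : D.Ω}
    (F : Pl (n - 1)) :
    zt D i j ω n - eval (fun l : Fin (n - 1) => up z (zt D i j ω (l + 1))) (kTr D n z i j F ω) =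
      2 ^ D.g i j n * (D.X ω n - eval (D.X ω) (vtP n z (D.g i j) (D.Ψ i j ω) F)) := by
  have e1 := VT.kTr_wof (D := D) (n := n) (z := z) (i := i) (j := j) (ω := ω) F (hO.P_tri _ _ _)
    (hO.G_tri _ _ _) (b := D.X ω) rfl
  rw [wof_own] at e1
  rw [e1]
  unfold zt nat
  ring

/-- **The height of the target over the total sheet, two samples.** -/
theorem htT_near (hO : D.Ok2 n K J a₀ w₀ z M lam gam κ C₁ q) (hn : 1 ≤ n) {i j i' j' : ℕ}
    (hi : i ≤ M) (hj : j ≤ M) (hi' : i' ≤ M) (hj' : j' ≤ M) {bb X : ℕ}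
    (hg : D.g i j n + X ≤ D.g i' j' n) {ω ω' : D.Ω} (hω : 0 < q ω) (hω' : 0 < q ω')
    (e1 : D.Ψ i j ω = D.Ψ i j ω') (e2 : D.Ψ i' j' ω = D.Ψ i' j' ω')
    (e3 : D.Φ i j ω = D.Φ i j ω') (e4 : D.X ω 0 = D.X ω' 0) {F : Pl (n - 1)}
    (hcf : ∀ α, |coeff α (kTr D n z i j F ω)| ≤ 2 ^ bb) {acc : ℝ}
    (hL : LfA D n z i j i' j' F acc ω) :
    |((htT D n z i j bb X F ω - htT D n z i j bb X F ω' : ℤ) : ℝ)| ≤ acc * 2 ^ X + 3 := by
  have hcf' : ∀ α, |coeff α (kTr D n z i j F ω')| ≤ 2 ^ bb := by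
    rw [← kTr_congr e1 e3 e4 F]
    exact hcf
  have m1 : MB D i j i' j' n ω (D.X ω) := mb_own hO hi hj hi' hj' hω
  have m2 : MB D i j i' j' n ω (D.X ω') := mb_congr e1 e2 e4 (mb_own hO hi hj hi' hj' hω')
  have h1 := hL _ _ m1 m2
  have p1 : |D.X ω n - eval (D.X ω) (D.Ψ i' j' ω n)| ≤ 1 / 2 ^ D.g i' j' n :=
    hO.pos i' hi' j' hj' ω hω n hn le_rfl
  have p2 : |D.X ω' n - eval (D.X ω') (D.Ψ i' j' ω n)| ≤ 1 / 2 ^ D.g i' j' n := by
    rw [e2]
    exact hO.pos i' hi' j' hj' ω' hω' n hn le_rfl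
  unfold htT
  rw [kT_eq hcf, kT_eq hcf', hgt_tot hO, hgt_tot hO, ← e1]
  obtain ⟨g, hgg⟩ : ∃ g : ℝ, g = 2 ^ D.g i j n := ⟨_, rfl⟩
  obtain ⟨x, hx⟩ : ∃ x, x = D.X ω n - eval (D.X ω) (vtP n z (D.g i j) (D.Ψ i j ω) F) := ⟨_, rfl⟩
  obtain ⟨x', hx'⟩ : ∃ x', x' = D.X ω' n - eval (D.X ω') (vtP n z (D.g i j) (D.Ψ i j ω) F) :=
    ⟨_, rfl⟩
  rw [← hx, ← hx', ← hgg]
  have g0 : 0 < g := by
    rw [hgg]
    positivity
  have b1 : |x - x'| ≤ 2 / 2 ^ D.g i' j' n + acc / g := by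
    have e5 : x - x' = (D.X ω n - eval (D.X ω) (D.Ψ i' j' ω n)) -
        (D.X ω' n - eval (D.X ω') (D.Ψ i' j' ω n)) -
        ((eval (D.X ω) (vtP n z (D.g i j) (D.Ψ i j ω) F) - eval (D.X ω) (D.Ψ i' j' ω n)) -
          (eval (D.X ω') (vtP n z (D.g i j) (D.Ψ i j ω) F) -
            eval (D.X ω') (D.Ψ i' j' ω n))) := by
      rw [hx, hx']
      ring
    rw [e5]
    refine (abs_sub _ _).trans ?_
    have h2 := abs_sub (D.X ω n - eval (D.X ω) (D.Ψ i' j' ω n))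
      (D.X ω' n - eval (D.X ω') (D.Ψ i' j' ω n))
    rw [← hgg] at h1
    have e6 : (2 : ℝ) / 2 ^ D.g i' j' n = 1 / 2 ^ D.g i' j' n + 1 / 2 ^ D.g i' j' n := by ring
    rw [e6]
    linarith only [p1, p2, h1, h2]
  have b2 : |(2 : ℝ) ^ X * (g * x) - 2 ^ X * (g * x')| ≤ 2 + acc * 2 ^ X := by
    have e5 : (2 : ℝ) ^ X * (g * x) - 2 ^ X * (g * x') = 2 ^ X * g * (x - x') := by ring
    rw [e5, abs_mul, abs_of_pos (by positivity)]
    have h3 : (2 : ℝ) ^ X * g * (2 / 2 ^ D.g i' j' n) ≤ 2 := by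
      rw [mul_div_assoc', div_le_iff₀ (by positivity)]
      have h4 : (2 : ℝ) ^ X * g ≤ 2 ^ D.g i' j' n := by
        rw [hgg, ← pow_add, add_comm]
        exact pow_le_pow_right₀ (by norm_num) hg
      linarith only [h4]
    have h5 : (2 : ℝ) ^ X * g * (acc / g) = acc * 2 ^ X := by field_simp
    have h6 := mul_le_mul_of_nonneg_left b1 (show 0 ≤ (2 : ℝ) ^ X * g by positivity)
    rw [mul_add, h5] at h6
    linarith only [h3, h6]
  refine (floor_near b2).trans ?_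
  linarith only

/-- The range of the height over the total sheet. -/
theorem htT_rng (n K K' : ℕ) : ∃ A : ℝ, 1 ≤ A ∧ ∀ (J a₀ w₀ z M : ℕ) (lam gam : ℕ → ℝ) (κ C₁ : ℝ)
    (D : NDat2) (q : D.Ω → ℝ), D.Ok2 n K J a₀ w₀ z M lam gam κ C₁ q →
    ∀ (i j X bb : ℕ) (F : Pl (n - 1)) (ω : D.Ω), F.totalDegree ≤ K' → i ≤ M → j ≤ M → 0 < q ω →
    |(htT D n z i j bb X F ω : ℝ)| ≤ A * (2 ^ X * 2 ^ bb) := by
  obtain ⟨B, hB⟩ : ∃ B : ℝ, B = (Pool.Agent.H36.KBX.bx (n - 1) (dT n K K')).card *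
    (((n - 1 : ℕ) : ℝ) * (dT n K K' : ℕ)) + 1 := ⟨_, rfl⟩
  have hB1 : 1 ≤ B := by
    rw [hB]
    have : (0 : ℝ) ≤ (Pool.Agent.H36.KBX.bx (n - 1) (dT n K K')).card *
      (((n - 1 : ℕ) : ℝ) * (dT n K K' : ℕ)) := by positivity
    linarith
  refine ⟨2 + B, by linarith only [hB1], ?_⟩
  intro J a₀ w₀ z M lam gam κ C₁ D q hO i j X bb F ω hF hi hj hω
  obtain ⟨R, hR⟩ : ∃ R, R = kT D n z i j bb F ω := ⟨_, rfl⟩
  obtain ⟨y, hy⟩ : ∃ y : Fin (n - 1) → ℝ,
    y = fun l : Fin (n - 1) => up z (zt D i j ω ((l : ℕ) + 1)) := ⟨_, rfl⟩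
  have hRd : R.totalDegree ≤ dT n K K' := by
    rw [hR]
    unfold kT
    split_ifs
    · exact VT.kTr_deg (fun l => hO.P_deg _ _ _ l) (hO.P_tri _ _ _) (fun l => hO.G_deg _ _ _ l)
        (hO.G_tri _ _ _) hF
    · rw [totalDegree_zero]
      exact Nat.zero_le _
  have hRc : ∀ α, |coeff α R| ≤ 2 ^ bb := by
    rw [hR]
    unfold kT
    split_ifs with h
    · exact h
    · intro α
      rw [coeff_zero, abs_zero]
      positivity
  have h1 : |eval y R| ≤ B * 2 ^ bb := by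
    rw [hB]
    refine eval_bd R hRd (by positivity) hRc fun l => ?_
    rw [hy]
    have := up_mem (z := z) (zt_le hO hi hj hω (l := (l : ℕ) + 1) (by have := l.2; omega))
    rw [abs_le]
    constructor <;> linarith only [this]
  have h2 := zt_le hO hi hj hω (l := n) le_rfl
  have hX : (1 : ℝ) ≤ 2 ^ X := one_le_pow₀ one_le_two
  have hb : (1 : ℝ) ≤ 2 ^ bb := one_le_pow₀ one_le_two
  have h3 : |(2 : ℝ) ^ X * (zt D i j ω n - eval y R)| ≤ 2 ^ X * (1 + B * 2 ^ bb) := by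
    rw [abs_mul, abs_of_pos (by positivity)]
    refine mul_le_mul_of_nonneg_left ((abs_sub _ _).trans ?_) (by positivity)
    linarith only [h1, h2]
  have h4 : |(htT D n z i j bb X F ω : ℝ)| ≤ 2 ^ X * (1 + B * 2 ^ bb) + 1 := by
    unfold htT
    rw [← hR, ← hy]
    have b1 := Int.floor_le ((2 : ℝ) ^ X * (zt D i j ω n - eval y R))
    have b2 := Int.lt_floor_add_one ((2 : ℝ) ^ X * (zt D i j ω n - eval y R))
    have b3 := abs_le.1 h3
    rw [abs_le]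
    constructor <;> linarith [b3.1, b3.2]
  refine h4.trans ?_
  have e2 : (2 : ℝ) ^ X ≤ 2 ^ X * 2 ^ bb := le_mul_of_one_le_right (by positivity) hb
  have e4 : (1 : ℝ) ≤ 2 ^ X * 2 ^ bb := one_le_mul_of_one_le_of_one_le hX hb
  nlinarith only [hX, e2]

end

end H50

open H50

/-- **(H2) for the total sheet on a sub-law.** -/
theorem h2T : H2TStmt := by
  intro n K K' K₀ N lam gam C₁ hn hC₁ _ c
  classical
  obtain ⟨C₂, hC₂, hsub⟩ := h2_sub n K lam gam C₁ hC₁ c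
  obtain ⟨A, hA, hrng⟩ := htT_rng n K K'
  obtain ⟨L, hL⟩ : ∃ L : ℝ, L = Real.log (4 * A + 3) := ⟨_, rfl⟩
  have hL0 : 0 ≤ L := by
    rw [hL]
    exact Real.log_nonneg (by linarith only [hA])
  refine ⟨2 * C₂ + 2 * L + 16, by linarith only [hC₂, hL0], fun M η hM hη => ?_⟩
  obtain ⟨κ₀, z₀, hκ₀, hsub⟩ := hsub M η hM hη
  refine ⟨κ₀, z₀ + 1, hκ₀, ?_⟩
  intro J a₀ w₀ z X bb k an be s S' κ κ' c₁ θ acc cc e ι D q π a ω₀ Om _ P f G hz hzX hκ hκ'
    hc₁ hηc hO hU hD hP hPl hG hPA hS hθ hGd _ hcf hacc hcc he0 he hbX hι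
  have hq := hO.isLaw
  have hpl := hS.isLaw
  have hp0 := hpl.nonneg
  have hz1 : 1 ≤ z := by omega
  have hzr : (1 : ℝ) ≤ z := by exact_mod_cast hz1
  have hol := hP.o_lt
  have ho1 : π.o.1 ≤ M := hol.1.le
  have ho2 : π.o.2 ≤ M := hol.2.le
  have hp1 : π.o.1 - S' * an ≤ M := (Nat.sub_le _ _).trans ho1
  have hp2 : π.o.2 + S' * be ≤ M := hG.o2.le
  have hpos : ∀ v, 0 < P v → 0 < q (f v) := fun v hv => sub_pos hc₁ hS hv
  have hc1 := sub_c1 hq hc₁ hS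
  obtain ⟨w, hw⟩ : ∃ w, w = w₀ + π.o.2 * z := ⟨_, rfl⟩
  obtain ⟨o', ho'⟩ : ∃ o' : ℕ × ℕ, o' = (π.o.1 - S' * an, π.o.2 + S' * be) := ⟨_, rfl⟩
  have ho'1 : o'.1 = π.o.1 - S' * an := by rw [ho']
  have ho'2 : o'.2 = π.o.2 + S' * be := by rw [ho']
  have hgn := hPA.tgt
  rw [← ho'1] at hp1 hgn he
  rw [← ho'2] at hp2 hgn he
  obtain ⟨Nf, hNf⟩ : ∃ Nf : Om → ℤ, Nf = fun v => htT D n z π.o.1 π.o.2 bb X (G v) (f v) :=
    ⟨_, rfl⟩
  obtain ⟨Kf, hKf⟩ : ∃ Kf : Om → Pl (n - 1), Kf = fun v => kT D n z π.o.1 π.o.2 bb (G v) (f v) :=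
    ⟨_, rfl⟩
  obtain ⟨V, hV⟩ : ∃ V : Om → VdT D k, V = fun v => Vd D π q J w ω₀ X a (D.wn J w (f v)) :=
    ⟨_, rfl⟩
  obtain ⟨W, hW⟩ : ∃ W : Om → D.Γ × (D.Γ × ℕ), W = fun v => (D.c o'.1 o'.2 (f v),
    (D.c π.o.1 π.o.2 (f v), D.T (f v))) := ⟨_, rfl⟩
  have hX0 : (0 : ℝ) ≤ X := Nat.cast_nonneg X
  have hθ0 : 0 ≤ θ := (CH_nonneg hp0 _ _).trans hθ
  -- the systems
  have dW : ∀ v v', 0 < P v → 0 < P v' → W v = W v' →
      D.Ψ π.o.1 π.o.2 (f v) = D.Ψ π.o.1 π.o.2 (f v') ∧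
      D.Ψ o'.1 o'.2 (f v) = D.Ψ o'.1 o'.2 (f v') ∧
      D.Φ π.o.1 π.o.2 (f v) = D.Φ π.o.1 π.o.2 (f v') ∧ D.X (f v) 0 = D.X (f v') 0 ∧
      zv D π.o.1 π.o.2 (f v) = zv D π.o.1 π.o.2 (f v') := by
    intro v v' hv hv' h
    rw [hW] at h
    simp only [Prod.mk.injEq] at h
    obtain ⟨h1, h2, h3⟩ := h
    have g1 := hO.s_c _ ho1 _ ho2 _ _ (hpos v hv) (hpos v' hv') (Prod.ext h2 h3)
    have g2 := hO.s_c _ hp1 _ hp2 _ _ (hpos v hv) (hpos v' hv') (Prod.ext h1 h3)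
    have g3 := Pool.ADJ.c_det hO (i := 0) (j := π.o.2) (i' := π.o.1) (j' := π.o.2) le_rfl
      (by omega) ho1 ho2 _ _ (hpos v hv) (hpos v' hv') h2
    have g4 := hO.s_c 0 (Nat.zero_le _) _ ho2 _ _ (hpos v hv) (hpos v' hv') (Prod.ext g3 h3)
    refine ⟨?_, ?_, ?_, ?_, ?_⟩
    · unfold NDat2.Ψ
      rw [g1]
    · unfold NDat2.Ψ
      rw [g2]
    · unfold NDat2.Φ
      rw [h2]
    · rw [hO.X_zero, hO.X_zero, h3]
    · unfold zv
      rw [g1, g4, h3]
  -- few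
  have hl2 : Real.log 2 ≤ 1 := by linarith only [hη, hηc, hc1, Real.log_two_lt_d9]
  have k1 : CH P (fun v => (Nf v, Kf v)) W ≤ θ + (cc + 3 + e * (L + 2 * X)) := by
    have e1 := CH_le_add hp0 (fun v => (Nf v, Kf v)) G W
    have e2 : CH P G W ≤ CH P G (fun v => zv D π.o.1 π.o.2 (f v)) :=
      CH_mono_cond hp0 fun v v' hv hv' h => (dW v v' hv hv' h).2.2.2.2
    have e3 := CH_chain hp0 Nf Kf (fun v => (G v, W v))
    have e4 : CH P Kf (fun v => (G v, W v)) = 0 := by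
      refine CH_eq_zero hp0 fun v v' hv hv' h => ?_
      obtain ⟨h1, -, h3, h4, -⟩ := dW v v' hv hv' (Prod.ext_iff.1 h).2
      have h5 : G v = G v' := (Prod.ext_iff.1 h).1
      rw [hKf]
      dsimp only
      rw [h5]
      exact kT_congr h1 h3 h4 _
    have e5 : CH P Nf (fun v => (Kf v, (G v, W v))) ≤ CH P Nf (fun v => (G v, W v)) :=
      CH_mono_cond hp0 fun v v' _ _ h => (Prod.ext_iff.1 h).2
    have e6 := CH_le_int hp0 hpl.sum_one Nf (fun v => (G v, W v))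
      (fun v => if LfA D n z π.o.1 π.o.2 o'.1 o'.2 (G v) acc (f v) then acc * 2 ^ X + 3
        else 2 * (A * (2 ^ X * 2 ^ bb)))
      (fun v v' hv hv' h => by
        obtain ⟨h1, h2, h3, h4, -⟩ := dW v v' hv hv' (Prod.ext_iff.1 h).2
        have h5 : G v = G v' := (Prod.ext_iff.1 h).1
        rw [hNf]
        dsimp only
        by_cases hLf : LfA D n z π.o.1 π.o.2 o'.1 o'.2 (G v) acc (f v)
        · rw [if_pos hLf, ← h5]
          exact htT_near hO hn ho1 ho2 hp1 hp2 hgn (hpos v hv) (hpos v' hv') h1 h2 h3 h4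
            (hcf v hv) hLf
        · rw [if_neg hLf]
          have r1 := hrng J a₀ w₀ z M lam gam κ C₁ D q hO π.o.1 π.o.2 X bb (G v) (f v) (hGd v)
            ho1 ho2 (hpos v hv)
          have r2 := hrng J a₀ w₀ z M lam gam κ C₁ D q hO π.o.1 π.o.2 X bb (G v') (f v') (hGd v')
            ho1 ho2 (hpos v' hv')
          push_cast
          refine (abs_sub _ _).trans ?_
          linarith only [r1, r2])
    have hX1 : (1 : ℝ) ≤ 2 ^ X := one_le_pow₀ one_le_two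
    have hb1 : (1 : ℝ) ≤ 2 ^ bb := one_le_pow₀ one_le_two
    have hXb : (1 : ℝ) ≤ 2 ^ X * 2 ^ bb := one_le_mul_of_one_le_of_one_le hX1 hb1
    have hcc1 : (1 : ℝ) ≤ (2 : ℝ) ^ cc := Real.one_le_rpow one_le_two hcc
    have e7 : ∀ v, 0 < P v → Real.log (2 * (if LfA D n z π.o.1 π.o.2 o'.1 o'.2 (G v) acc (f v)
        then acc * 2 ^ X + 3 else 2 * (A * (2 ^ X * 2 ^ bb))) + 1) ≤
        (cc + 3) + (if ¬ LfA D n z π.o.1 π.o.2 o'.1 o'.2 (G v) acc (f v) then (L + 2 * X)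
          else 0) := by
      intro v hv
      by_cases hLf : LfA D n z π.o.1 π.o.2 o'.1 o'.2 (G v) acc (f v)
      · rw [if_pos hLf, if_neg (not_not.2 hLf), add_zero]
        have h0 : 0 ≤ acc * 2 ^ X := by
          obtain ⟨y, hy⟩ : ∃ y, y = D.X (f v) := ⟨_, rfl⟩
          have h1 := hLf _ _ (mb_own hO ho1 ho2 hp1 hp2 (hpos v hv))
            (mb_own hO ho1 ho2 hp1 hp2 (hpos v hv))
          rw [sub_self, abs_zero] at h1
          have h2 : 0 ≤ acc := by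
            by_contra hneg
            push Not at hneg
            have := div_neg_of_neg_of_pos hneg
              (show (0 : ℝ) < 2 ^ D.g π.o.1 π.o.2 n by positivity)
            linarith only [h1, this]
          positivity
        have h1 : Real.log (2 * (acc * 2 ^ X + 3) + 1) ≤ Real.log (9 * (2 : ℝ) ^ cc) :=
          Real.log_le_log (by linarith only [hη, hηc, hc1, h0]) (by linarith only [hacc, hcc1])
        rw [Real.log_mul (by norm_num) (by positivity), Real.log_rpow (by norm_num)] at h1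
        have h3 : cc * Real.log 2 ≤ cc * 1 := mul_le_mul_of_nonneg_left hl2 hcc
        have h4 : Real.log 9 ≤ 3 := by
          have : (9 : ℝ) ≤ Real.exp 3 := by
            have h5 := Real.exp_one_gt_d9
            have h6 : Real.exp 3 = Real.exp 1 ^ 3 := by
              rw [← Real.exp_nat_mul]
              norm_num
            rw [h6]
            have h7 : (2.7 : ℝ) ^ 3 ≤ Real.exp 1 ^ 3 :=
              pow_le_pow_left₀ (by norm_num) (by linarith only [hη, hηc, hc1, h5]) 3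
            linarith only [hη, hηc, hc1, h7]
          calc Real.log 9 ≤ Real.log (Real.exp 3) := Real.log_le_log (by norm_num) this
            _ = 3 := Real.log_exp 3
        linarith only [h1, h3, h4]
      · rw [if_neg hLf, if_pos hLf]
        have h1 : Real.log (2 * (2 * (A * (2 ^ X * 2 ^ bb))) + 1) ≤
            Real.log ((4 * A + 3) * (2 ^ X * 2 ^ bb)) :=
          Real.log_le_log (by positivity) (by nlinarith only [hη, hηc, hc1, hXb])
        rw [Real.log_mul (by positivity) (by positivity),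
          Real.log_mul (by positivity) (by positivity), Real.log_pow, Real.log_pow, ← hL] at h1
        have h2 := mul_le_mul_of_nonneg_left hl2 hX0
        have h3 := mul_le_mul_of_nonneg_left hl2 (Nat.cast_nonneg bb (α := ℝ))
        have h4 : (bb : ℝ) ≤ X := hbX
        linarith only [hη, hηc, hcc, hc1, h1, h2, h3, h4]
    have e8 := e6.trans (Ex_mono hp0 fun v hv => e7 v hv)
    rw [Ex_add, Ex_const hpl.sum_one] at e8
    have e9 : Ex P (fun v => if ¬ LfA D n z π.o.1 π.o.2 o'.1 o'.2 (G v) acc (f v) then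
        (L + 2 * (X : ℝ)) else 0) = Pb P (fun v => ¬ LfA D n z π.o.1 π.o.2 o'.1 o'.2 (G v) acc
          (f v)) * (L + 2 * X) := by
      unfold Ex Pb
      rw [Finset.sum_mul]
      refine Finset.sum_congr rfl fun v _ => ?_
      by_cases hv : LfA D n z π.o.1 π.o.2 o'.1 o'.2 (G v) acc (f v)
      · simp only [hv, not_true, if_false, mul_zero, zero_mul]
      · simp only [hv, not_false_eq_true, if_true]
    rw [e9] at e8
    have e10 := mul_le_mul_of_nonneg_right he (show 0 ≤ L + 2 * (X : ℝ) by positivity)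
    linarith only [hθ, e1, e2, e3, e4, e5, e8, e10]
  -- the range
  obtain ⟨B, hB⟩ : ∃ B : ℕ, B = ⌈A * (2 ^ X * 2 ^ bb)⌉₊ := ⟨_, rfl⟩
  have hB1 : A * (2 ^ X * 2 ^ bb) ≤ B := by
    rw [hB]
    exact Nat.le_ceil _
  have hB2 : (B : ℝ) < A * (2 ^ X * 2 ^ bb) + 1 := by
    rw [hB]
    exact Nat.ceil_lt_add_one (by positivity)
  have hF' : ∀ v, 0 < P v → Nf v ∈ Finset.Icc (-(B : ℤ)) B := by
    intro v hv
    have e1 := hrng J a₀ w₀ z M lam gam κ C₁ D q hO π.o.1 π.o.2 X bb (G v) (f v) (hGd v)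
      ho1 ho2 (hpos v hv)
    have e2 := abs_le.1 (e1.trans hB1)
    rw [hNf, Finset.mem_Icc]
    constructor
    · exact_mod_cast e2.1
    · exact_mod_cast e2.2
  have hcard : Real.log ((Finset.Icc (-(B : ℤ)) B).card : ℝ) ≤ L + 2 * X := by
    have e1 : ((Finset.Icc (-(B : ℤ)) B).card : ℝ) = 2 * B + 1 := by
      rw [Int.card_Icc]
      have : ((B : ℤ) + 1 - -(B : ℤ)).toNat = 2 * B + 1 := by omega
      rw [this]
      push_cast
      ring
    have hX : (1 : ℝ) ≤ 2 ^ X := one_le_pow₀ one_le_two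
    have hb : (1 : ℝ) ≤ 2 ^ bb := one_le_pow₀ one_le_two
    have e2 : (1 : ℝ) ≤ 2 ^ X * 2 ^ bb := one_le_mul_of_one_le_of_one_le hX hb
    have e3 : (2 : ℝ) * B + 1 ≤ (4 * A + 3) * (2 ^ X * 2 ^ bb) := by nlinarith only [hA, hB2, e2]
    rw [e1]
    refine (Real.log_le_log (by positivity) e3).trans ?_
    rw [Real.log_mul (by positivity) (by positivity),
      Real.log_mul (by positivity) (by positivity), Real.log_pow, Real.log_pow, ← hL]
    have e4 := mul_le_mul_of_nonneg_left hl2 hX0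
    have e5 := mul_le_mul_of_nonneg_left hl2 (Nat.cast_nonneg bb (α := ℝ))
    have e6 : (bb : ℝ) ≤ X := hbX
    linarith only [e4, e5, e6]
  rw [hW, ho'1, ho'2] at k1
  have k2 := hsub J a₀ w₀ z X k w κ κ' D q π a an be s S' ω₀ (by omega) hzX hκ hκ' hw hO hU hD
    hP hPl hG Om c₁ P f hc₁ hηc hS ℤ (Pl (n - 1)) Nf Kf _ _ hF' k1
  have k3 : CH P Nf (fun v => (Kf v, (D.c π.o.1 π.o.2 (f v), D.T (f v)))) ≤
      CH P Nf (fun v => (V v, (Kf v, (D.c π.o.1 π.o.2 (f v), D.T (f v))))) +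
      (2 / c₁ * (C₂ * z + η * X) + 2 * (θ + (cc + 3 + e * (L + 2 * X))) +
        η / c₁ * Real.log ((Finset.Icc (-(B : ℤ)) B).card : ℝ) + 1) := by
    rw [hV]
    exact k2
  -- the chart of the data
  have d1 : Det P (fun v => (D.c π.o.1 π.o.2 (f v), (thr D J w (f v), Kf v)))
      (fun v => (Kf v, (D.c π.o.1 π.o.2 (f v), D.T (f v)))) := by
    intro v v' hv hv' h
    simp only [Prod.mk.injEq] at h ⊢
    refine ⟨h.2.2, h.1, ?_⟩
    have h1 : D.T (f v) / 2 ^ (J - w) = D.T (f v') / 2 ^ (J - w) := by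
      rw [hw]
      exact hO.c_T _ ho1 _ ho2 _ _ (hpos v hv) (hpos v' hv') h.1
    have h2 : D.T (f v) % 2 ^ (J - w) = D.T (f v') % 2 ^ (J - w) := h.2.1
    rw [← Nat.div_add_mod (D.T (f v)) (2 ^ (J - w)), ← Nat.div_add_mod (D.T (f v')) (2 ^ (J - w)),
      h1, h2]
  have d2 : Det P (fun v => (Kf v, (D.c π.o.1 π.o.2 (f v), D.T (f v))))
      (fun v => (D.c π.o.1 π.o.2 (f v), (thr D J w (f v), Kf v))) := by
    intro v v' _ _ h
    simp only [Prod.mk.injEq] at h ⊢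
    refine ⟨h.2.1, ?_, h.1⟩
    unfold thr
    rw [h.2.2]
  have c1 : CH P Nf (fun v => (D.c π.o.1 π.o.2 (f v), (thr D J w (f v), Kf v))) ≤
      CH P Nf (fun v => (Kf v, (D.c π.o.1 π.o.2 (f v), D.T (f v)))) := CH_mono_cond hp0 d1
  have c2 : CH P Nf (fun v => (V v, (Kf v, (D.c π.o.1 π.o.2 (f v), D.T (f v))))) ≤
      CH P Nf (fun v => (V v, (D.c π.o.1 π.o.2 (f v), (thr D J w (f v), Kf v)))) :=
    CH_mono_cond hp0 fun v v' hv hv' h => by
      have e1 := Prod.ext_iff.1 h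
      exact Prod.ext e1.1 (d2 v v' hv hv' e1.2)
  have c3 := CH_chain hp0 Nf V (fun v => (D.c π.o.1 π.o.2 (f v), (thr D J w (f v), Kf v)))
  have goal' : Pool.KVA.MI P Nf V (fun v => (D.c π.o.1 π.o.2 (f v), (thr D J w (f v), Kf v))) ≤
      ι * X := by
    unfold Pool.KVA.MI
    refine le_trans ?_ hι
    have n4 : η / c₁ * Real.log ((Finset.Icc (-(B : ℤ)) B).card : ℝ) ≤
        (η * (L + 2 * X)) / c₁ := by
      have h1 := mul_le_mul_of_nonneg_left hcard (show 0 ≤ η / c₁ by positivity)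
      refine h1.trans (le_of_eq ?_)
      ring
    have hXz : (1 : ℝ) ≤ X := hzr.trans (by exact_mod_cast hzX)
    have n5 : (2 * (C₂ * z + η * X) + η * (L + 2 * X)) / c₁ ≤
        (2 * C₂ + 2 * L + 16) * (z + 1 + η * X) / c₁ := by
      refine div_le_div_of_nonneg_right ?_ hc₁.le
      have m2 : η * L ≤ L * (η * X) := by
        have := mul_le_mul_of_nonneg_left hXz (show 0 ≤ η * L by positivity)
        linarith only [this]
      have m6 : 0 ≤ C₂ * (η * X) := by positivity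
      have m7 : 0 ≤ L * z := by positivity
      have m11 : 0 ≤ L * (η * X) := by positivity
      have m14 : 0 ≤ η * X := by positivity
      nlinarith only [m2, m6, m7, m11, m14, hC₂, hL0, hzr]
    have n7 : 2 * (θ + (cc + 3 + e * (L + 2 * X))) + 1 ≤
        (2 * C₂ + 2 * L + 16) * (θ + cc + 1 + e * X) := by
      have m1 : e * L ≤ L * (e * X) := by
        have := mul_le_mul_of_nonneg_left hXz (show 0 ≤ e * L by positivity)
        linarith only [this]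
      have m3 : 0 ≤ C₂ * θ := by positivity
      have m4 : 0 ≤ C₂ * cc := by positivity
      have m5 : 0 ≤ C₂ * (e * X) := by positivity
      have m8 : 0 ≤ L * θ := by positivity
      have m9 : 0 ≤ L * cc := by positivity
      have m10 : 0 ≤ L * (e * X) := by positivity
      have m13 : 0 ≤ e * X := by positivity
      nlinarith only [m1, m3, m4, m5, m8, m9, m10, m13, hC₂, hL0, hcc, hθ0]
    have n6 : 2 / c₁ * (C₂ * z + η * X) + (η * (L + 2 * X)) / c₁ =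
        (2 * (C₂ * z + η * X) + η * (L + 2 * X)) / c₁ := by ring
    linarith only [n4, n5, n6, n7, k3, c1, c2, c3]
  rw [hNf, hV, hKf] at goal'
  rw [hw] at goal'
  exact goal'

end Pool.VAS
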